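import Pool.Agent.Q12.AltTor.Final

/-!
The free alternative ring on six or more generators has elements of order three.

Let `FreeAlt Φ X` be the free alternative `Φ`-algebra on `X` (the free nonassociative algebra modulo the
smallest two-sided ideal containing all `(a, a, b)` and `(b, a, a)`).

* If `X` has at least six elements then `FreeAlt ℤ X` contains `w ≠ 0` with `3 • w = 0`.
* If `X` has at least six elements and `3 ∉ 9 Φ` (for instance `Φ` is a domain of characteristic different
  from three in which `3` is not invertible), then `FreeAlt Φ X` is not a free `Φ`-module, not even a flat one.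

Proof. In three odd variables `x, y, z` there is a polynomial `F` of degree `(2, 2, 2)` (173 terms) such that
`3 F` is an integer combination of 691 elementary consequences of super-alternativity (kernel-checked
certificate), while `F` takes a nonzero value in a super-commutative alternative superalgebra of dimension
18 over any field of characteristic three. Polarizing (exterior algebras on both sides) gives a multilinear
polynomial of degree six in ordinary variables.
-/

set_option autoImplicit false

namespace Pool.Agent.Results.MP_2692c1_al.ThreeTorsion

open Pool.Agent.Helper805.Nuc.Free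

theorem result :
    (∀ X : Type, (∃ ι : Fin 6 → X, Function.Injective ι) →
      ∃ w : FreeAlt ℤ X, w ≠ 0 ∧ (3 : ℤ) • w = 0) ∧
    (∀ (Φ : Type) [CommRing Φ] (X : Type), (∃ ι : Fin 6 → X, Function.Injective ι) →
      (¬ ∃ b : Φ, (3 : Φ) = 9 * b) →
      ¬ Module.Free Φ (FreeAlt Φ X) ∧ ¬ Module.Flat Φ (FreeAlt Φ X)) := by
  refine ⟨?_, ?_⟩
  · rintro X ⟨ι, hι⟩
    exact ⟨Q12.AltTor.tw ι, Q12.AltTor.tw_ne ι hι, Q12.AltTor.three_tw ι⟩
  · intro Φ _ X hX h
    obtain ⟨ι, hι⟩ := hX
    have hnf := Q12.AltTor.not_flat h ι hι
    exact ⟨fun hf => hnf inferInstance, hnf⟩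

end Pool.Agent.Results.MP_2692c1_al.ThreeTorsion
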